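import Pool.Agent.W845.HC.Base

set_option autoImplicit false
open scoped Classical
open Filter Topology
open scoped BigOperators

namespace Pool.Agent.W816.HC

open Pool.Agent.W845.PM Pool.Agent.W845.HC

noncomputable section

theorem grow : S_LAM → S_SUP → S_GAIN → S_GROW := by
  intro hL hS hG a ha ha1
  obtain ⟨-, -, -, hcard, -, -⟩ := hL
  refine ⟨⌈4 / a ^ 2⌉₊ + 1, ?_⟩
  intro n m p q hn hm hp0 hp1 hq0 hq hmu
  have ha2 : 0 < a ^ 2 := by positivity
  have hnR : (4 / a ^ 2) + 1 ≤ (n : ℝ) := by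
    have h1 : (4 / a ^ 2 : ℝ) ≤ (⌈4 / a ^ 2⌉₊ : ℝ) := Nat.le_ceil _
    have h2 : ((⌈4 / a ^ 2⌉₊ + 1 : ℕ) : ℝ) ≤ (n : ℝ) := by exact_mod_cast hn
    push_cast at h2
    linarith
  have h4 : 0 < 4 / a ^ 2 := by positivity
  have hn1 : (1 : ℝ) ≤ n := by linarith
  have hn0 : (0 : ℝ) < n := by linarith
  have h4n : 4 ≤ a ^ 2 * n := by
    have : 4 / a ^ 2 ≤ (n : ℝ) := by linarith
    rw [div_le_iff₀ ha2] at this
    linarith
  have hqn : q * n ≤ a ^ 2 / 4 := by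
    rwa [le_div_iff₀ hn0] at hq
  have ha21 : a ^ 2 ≤ 1 := by nlinarith
  have hq1 : q ≤ 1 := by nlinarith
  have hmn : (m : ℝ) ≤ n := by exact_mod_cast hm
  have hmu0 : ∀ G : SimpleGraph (Fin m), 0 ≤ (m : ℝ) - lam G := by
    intro G
    have h := hcard (Fin m) G
    rw [Fintype.card_fin] at h
    have h' : lam G ≤ m := h.trans (Nat.sub_le _ _)
    have : (lam G : ℝ) ≤ m := by exact_mod_cast h'
    linarith
  have hmun : ∀ G : SimpleGraph (Fin m), (m : ℝ) - lam G ≤ n := by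
    intro G
    have : (0 : ℝ) ≤ lam G := Nat.cast_nonneg _
    linarith
  have hSUP := hS m p q (fun G => (lam G : ℝ))
  rw [← hSUP]
  have hpt : ∀ G : SimpleGraph (Fin m),
      (1 - a * n * q) * (lam G : ℝ) + (a * n * m * q - (a * n) ^ 2 * q / 2 - n * q / 2 -
        a ^ 2 * n ^ 2 * q / 8) ≤ EG m q (fun G' => (lam (G ⊔ G') : ℝ)) := by
    intro G
    refine le_trans ?_ (hG m q G hq0 hq1)
    set u : ℝ := (m : ℝ) - lam G with hu
    have hu0 : 0 ≤ u := hmu0 G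
    have hun : u ≤ n := hmun G
    have e1 : (lam G : ℝ) = m - u := by rw [hu]; ring
    rw [e1]
    have hu3 : u ^ 3 ≤ (n : ℝ) ^ 3 := pow_le_pow_left₀ hu0 hun 3
    have h3 : u ^ 3 * q ^ 2 / 2 ≤ a ^ 2 * n ^ 2 * q / 8 := by
      have : u ^ 3 * q ^ 2 ≤ (n : ℝ) ^ 3 * q ^ 2 := mul_le_mul_of_nonneg_right hu3 (by positivity)
      have h5 : (n : ℝ) ^ 3 * q ^ 2 ≤ n ^ 2 * q * (a ^ 2 / 4) := by
        have : (n : ℝ) ^ 3 * q ^ 2 = n ^ 2 * q * (q * n) := by ring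
        rw [this]
        exact mul_le_mul_of_nonneg_left hqn (by positivity)
      nlinarith
    have h6 : 0 ≤ (u - a * n) ^ 2 * q := by positivity
    have h7 : u * q ≤ n * q := mul_le_mul_of_nonneg_right hun hq0
    nlinarith
  have hE : EG m p (fun G => (1 - a * n * q) * (lam G : ℝ) + (a * n * m * q - (a * n) ^ 2 * q / 2 -
      n * q / 2 - a ^ 2 * n ^ 2 * q / 8)) ≤
      EG m p (fun G => EG m q (fun G' => (lam (G ⊔ G') : ℝ))) := EG_mono hp0 hp1 hpt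
  rw [EG_add, EG_mul_left, EG_const oneT] at hE
  refine le_trans ?_ hE
  have h8 : a * n * q * (a * n) ≤ a * n * q * ((m : ℝ) - EG m p (fun G => (lam G : ℝ))) :=
    mul_le_mul_of_nonneg_left hmu (by positivity)
  have h9 : n * q * 4 ≤ n * q * (a ^ 2 * n) := mul_le_mul_of_nonneg_left h4n (by positivity)
  nlinarith

end

end Pool.Agent.W816.HC
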