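import Pool.Agent.W845.HC.Base

set_option autoImplicit false
open scoped Classical
open Filter Topology
open scoped BigOperators

namespace Pool.Agent.W816.HC

open Pool.Agent.W845.PM Pool.Agent.W845.HC

noncomputable section

theorem isLF_bot {V : Type} [Fintype V] : IsLF (⊥ : SimpleGraph V) := by
  refine ⟨SimpleGraph.isAcyclic_bot, fun v => ?_⟩
  simp [dg]

theorem dg_mono {V : Type} [Fintype V] {F F' : SimpleGraph V} (h : F ≤ F') (v : V) :
    dg F v ≤ dg F' v := by
  unfold dg
  apply Finset.card_le_card
  intro w hw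
  simp only [Finset.mem_filter, Finset.mem_univ, true_and] at hw ⊢
  exact h hw

theorem isLF_mono {V : Type} [Fintype V] {F F' : SimpleGraph V} (h : F ≤ F') (hF : IsLF F') :
    IsLF F := ⟨hF.1.anti h, fun v => (dg_mono h v).trans (hF.2 v)⟩

theorem lam_att {V : Type} [Fintype V] (G : SimpleGraph V) :
    ∃ F : SimpleGraph V, F ≤ G ∧ IsLF F ∧ ec F = lam G := by
  have hne : (Finset.univ.filter (fun F : SimpleGraph V => F ≤ G ∧ IsLF F)).Nonempty :=
    ⟨⊥, by simp only [Finset.mem_filter, Finset.mem_univ, true_and]; exact ⟨bot_le, isLF_bot⟩⟩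
  obtain ⟨F, hF, h⟩ := Finset.exists_mem_eq_sup _ hne (ec : SimpleGraph V → ℕ)
  simp only [Finset.mem_filter, Finset.mem_univ, true_and] at hF
  exact ⟨F, hF.1, hF.2, h.symm⟩

theorem le_lam {V : Type} [Fintype V] (G F : SimpleGraph V) (h : F ≤ G) (hF : IsLF F) :
    ec F ≤ lam G := by
  refine Finset.le_sup (f := (ec : SimpleGraph V → ℕ)) ?_
  simp only [Finset.mem_filter, Finset.mem_univ, true_and]
  exact ⟨h, hF⟩

theorem ec_del {V : Type} [Fintype V] (F : SimpleGraph V) (v : V) :
    ec F ≤ ec (del F v) + dg F v := by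
  unfold ec
  have h1 : F.edgeSet ⊆ (del F v).edgeSet ∪
      ((Finset.univ.filter (fun w => F.Adj v w)).image (fun w => s(v, w)) : Finset (Sym2 V)) := by
    intro e
    refine Sym2.ind (fun x y => ?_) e
    intro h
    rw [SimpleGraph.mem_edgeSet] at h
    by_cases hx : x = v
    · right
      simp only [Finset.coe_image, Set.mem_image, Finset.coe_filter, Set.mem_ofPred_eq,
        Finset.mem_univ, true_and]
      exact ⟨y, hx ▸ h, by rw [hx]⟩
    · by_cases hy : y = v
      · right
        simp only [Finset.coe_image, Set.mem_image, Finset.coe_filter, Set.mem_ofPred_eq,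
          Finset.mem_univ, true_and]
        exact ⟨x, hy ▸ h.symm, by rw [hy, Sym2.eq_swap]⟩
      · left
        rw [SimpleGraph.mem_edgeSet]
        exact ⟨h, hx, hy⟩
  refine (Set.ncard_le_ncard h1 (Set.toFinite _)).trans ((Set.ncard_union_le _ _).trans ?_)
  refine Nat.add_le_add_left ?_ _
  rw [Set.ncard_coe_finset]
  exact Finset.card_image_le

theorem lam_del {V : Type} [Fintype V] (G G' : SimpleGraph V) (v : V) (h : del G v = del G' v) :
    lam G ≤ lam G' + 2 := by
  obtain ⟨F, hFG, hF, he⟩ := lam_att G
  have h1 : del F v ≤ G' := by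
    intro a b hab
    have : (del G v).Adj a b := ⟨hFG hab.1, hab.2⟩
    rw [h] at this
    exact this.1
  have h2 : del F v ≤ F := fun a b hab => hab.1
  have h3 := le_lam G' (del F v) h1 (isLF_mono h2 hF)
  have h4 := ec_del F v
  have h5 := hF.2 v
  omega

theorem ec_path (k : ℕ) : ec (SimpleGraph.pathGraph (k + 1)) = k := by
  unfold ec
  have h1 : (SimpleGraph.pathGraph (k + 1)).edgeSet =
      Set.range (fun i : Fin k => s(i.castSucc, i.succ)) := by
    ext e
    refine Sym2.ind (fun x y => ?_) e
    rw [SimpleGraph.mem_edgeSet, SimpleGraph.pathGraph_adj]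
    constructor
    · rintro (h | h)
      · have hx : x.val < k := by have := y.isLt; omega
        refine ⟨⟨x.val, hx⟩, ?_⟩
        have e1 : (Fin.castSucc ⟨x.val, hx⟩ : Fin (k + 1)) = x := by ext; simp
        have e2 : (Fin.succ ⟨x.val, hx⟩ : Fin (k + 1)) = y := by ext; simp [h]
        simp only [e1, e2]
      · have hy : y.val < k := by have := x.isLt; omega
        refine ⟨⟨y.val, hy⟩, ?_⟩
        have e1 : (Fin.castSucc ⟨y.val, hy⟩ : Fin (k + 1)) = y := by ext; simp
        have e2 : (Fin.succ ⟨y.val, hy⟩ : Fin (k + 1)) = x := by ext; simp [h]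
        simp only [e1, e2]
        exact Sym2.eq_swap
    · rintro ⟨i, hi⟩
      simp only [Sym2.eq_iff] at hi
      rcases hi with ⟨h1, h2⟩ | ⟨h1, h2⟩
      · left; rw [← h1, ← h2]; simp
      · right; rw [← h1, ← h2]; simp
  rw [h1]
  have h2 : Function.Injective (fun i : Fin k => s(i.castSucc, i.succ)) := by
    intro i j hij
    simp only [Sym2.eq_iff] at hij
    rcases hij with ⟨h, _⟩ | ⟨h, h'⟩
    · exact Fin.castSucc_injective k h
    · have a1 := congrArg Fin.val h
      have a2 := congrArg Fin.val h'
      simp at a1 a2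
      omega
  rw [← Set.image_univ, Set.ncard_image_of_injective _ h2, Set.ncard_univ]
  simp

theorem isLF_path (k : ℕ) : IsLF (SimpleGraph.pathGraph (k + 1)) := by
  constructor
  · have h : (SimpleGraph.pathGraph (k + 1)).IsTree := by
      rw [SimpleGraph.isTree_iff_connected_and_card]
      refine ⟨SimpleGraph.pathGraph_connected k, ?_⟩
      have := ec_path k
      unfold ec at this
      rw [Nat.card_coe_set_eq, this]
      simp
    exact h.2
  · intro v
    unfold dg
    have h : (Finset.univ.filter (fun w => (SimpleGraph.pathGraph (k + 1)).Adj v w)).image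
        (fun w : Fin (k + 1) => w.val) ⊆ {v.val + 1, v.val - 1} := by
      intro x hx
      simp only [Finset.mem_image, Finset.mem_filter, Finset.mem_univ, true_and] at hx
      obtain ⟨w, hw, rfl⟩ := hx
      rw [SimpleGraph.pathGraph_adj] at hw
      simp only [Finset.mem_insert, Finset.mem_singleton]
      omega
    rw [← Finset.card_image_of_injective (Finset.univ.filter
      (fun w => (SimpleGraph.pathGraph (k + 1)).Adj v w)) Fin.val_injective]
    exact (Finset.card_le_card h).trans Finset.card_le_two

theorem lamT : S_FC → S_LAM := by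
  intro hFC
  have hcard : ∀ (V : Type) [Fintype V] (G : SimpleGraph V), lam G ≤ Fintype.card V - 1 := by
    intro V _ G
    obtain ⟨F, hFG, hF, he⟩ := lam_att G
    have h1 := hFC V F hF.1
    rw [← he]
    rcases isEmpty_or_nonempty V with hV | hV
    · have : Fintype.card V = 0 := Fintype.card_eq_zero
      omega
    · have : 0 < Nat.card F.ConnectedComponent := Nat.card_pos
      omega
  refine ⟨fun V _ G => lam_att G, fun V _ G F h hF => le_lam G F h hF, ?_, hcard, ?_, ?_⟩
  · intro V _ G G' h
    obtain ⟨F, hFG, hF, he⟩ := lam_att G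
    rw [← he]
    exact le_lam G' F (hFG.trans h) hF
  · intro V _ G G' v h
    have h1 := lam_del G G' v h
    have h2 := lam_del G' G v h.symm
    have h1' : (lam G : ℝ) ≤ lam G' + 2 := by exact_mod_cast h1
    have h2' : (lam G' : ℝ) ≤ lam G + 2 := by exact_mod_cast h2
    rw [abs_le]
    constructor <;> linarith
  · intro n
    have h1 := hcard (Fin n) ⊤
    rw [Fintype.card_fin] at h1
    refine le_antisymm h1 ?_
    rcases n with _ | k
    · simp
    · have h2 := le_lam (⊤ : SimpleGraph (Fin (k + 1))) _ le_top (isLF_path k)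
      rw [ec_path] at h2
      simpa using h2

end

end Pool.Agent.W816.HC
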